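import Pool.Agent.Helper17.BG.Cyc
import Pool.Agent.Helper17.BG.K3Sys

/-!
# Cycle classes on products of arbitrary varieties with K3 surfaces of different heights

Let `κ` be a finite field with `q = p ^ m` elements, and `𝒱` a class of smooth projective varieties over
`κ`, closed under products, with Chow groups `A` with rational coefficients and a Weil cohomology theory
`H` (framework of the starting files: `TheoryData`, `IsChow`, `IsWeil`). Let `X_i`, `1 ≤ i ≤ r`, be K3
surfaces over `κ` of finite heights `h_i`, with `22 - b_i` the geometric Picard number, all divisors
being defined over `κ` (true after a finite extension of `κ`). More generally (`HasK3Type`) `X_i` is a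
variety whose cohomology is generated by the classes of algebraic cycles and a subspace `T` stable under
the Frobenius, where the eigenvalues of the Frobenius are, up to roots of unity and after an extension of
`κ` of degree `e_i`, of the form `q ^ w` times a product of at most `n_i` conjugates of the number `α_i`,
not balanced (some conjugate and its inverse do not occur equally often). Here `α_i` is the Frobenius
number of a K3 surface of height `h_i` (`IsK3Number`: all powers of `α_i` generate the CM field `E_i`,
the complex absolute values are `1`, the `p`-adic embeddings with `|α_i| > 1` belong to one place, and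
there `|α_i| = q ^ (1 / h_i)`; `h_i` and `b_i` are the same multiple of the local degree and of the degree
`2 d_i` of `E_i`). So `X_i` can be a K3 surface or a cubic fourfold (`n_i = 1`), a power of
a K3 surface or a Hilbert scheme of points of a K3 surface, if the Tate conjecture is known for it (for
instance `S × S`, `n_i = 2`, for all K3 surfaces `S` of finite height: Ito, Ito and Koshikawa).

Let `U` be **any** variety over `κ` (open, singular, reducible), `ε = dim U`, and `Z` a variety in `𝒱` (for
example a point). Let `M = ⨁ M^c` with `M^c = H_{2ε-c}(Ū, ℚ_ℓ(ε)) ⊗ K`, the étale homology, with the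
geometric Frobenius `μ` (`Homology`; for `U` smooth of pure dimension `ε` this is the cohomology
`H^c(Ū)`). For `X` in `𝒱` let `R(X) = H(X) ⊗ M`, with the Frobenius `Φ = F_X ⊗ μ`. By the Künneth formula
`H_{2i}(X̄ × Ū, ℚ_ℓ(i)) ⊗ K` is, with `n = dim X + ε - i`, the sum of the `H^a(X) ⊗ M^c` with `a + c = 2 n`
(`degreePart`), and the eigenvalue `1` of `Frob_q` on it is the eigenvalue `q ^ n` of `Φ`. Let `T` be the
theory `T^n(X) = CH_i(X × U) ⊗ K`, `i = dim X + ε - n`, with the Frobenius `φ` of `U`, and `reg` the
cycle class map (on `T` act the correspondences between the varieties in `𝒱`, the cycle class map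
commutes with this, and the Frobenius of `X × U` is `q ^ n` on `T^n(X)`: `IsTheory`, `HasFrobenius`,
`IsRegulator`).

Let `χ` be a polynomial with rational coefficients, `χ(0) ≠ 0`, with `χ(μ) = 0` (there are such polynomials,
since the eigenvalues of `μ` are algebraic). Let `Γ` be a set of rational numbers which contains `0`, such
that the products `β ρ` of the eigenvalues `β` of the Frobenius on `H(Z)` and of the roots `ρ` of `χ` are
Weil numbers of some weights `w`, with slopes in `w / 2 + Γ` if `w` is even. Suppose (`Admissible`) that

* integers `a_i`, `|a_i| ≤ n_i`, such that `∑ a_i / h_i` belongs to `Γ` are zero, and that `n_i ≤ 2`, or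
  `n_i = 3` and `(d_i, m_i) ∉ exceptionalPairs`, or `m_i` is odd and `(d_i, m_i) ∉ exceptionalOddPairs`,
  with the local degree `m_i`; or
* (`Γ = {0}`) this only for the `a_i` with index `i` in a set of indices (the `Isolated` ones), and for
  the other indices only that `n_i = 1`, that the `h_i` are different, and that there are not three such
  indices with `(h, b) = (2, 4), (3, 6), (6, 12)` (the bounds `h ≤ 11`, `b ≤ 23` hold for all K3
  surfaces).

**Theorem.** Let `V` be the product of `Z` and of finitely many of the `X_i` (pairwise different), and
`δ = dim V - dim Z`. For every integer `i`: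
* `cl_i` is surjective for `V × U` if and only if `cl_{i-l}` is surjective for `Z × U` for `0 ≤ l ≤ δ`.
* `SS_i(V × U)` is true if and only if `SS_{i-l}(Z × U)` is true for `0 ≤ l ≤ δ`. Nothing else is assumed.
* Assume that homologically trivial self-correspondences of degree zero of the products `V` are
  nilpotent and that `χ (φ) = 0` on the Chow groups of the `X × U` (for example if the motives of the
  varieties and of `U` are finite-dimensional). Then `cl_i` is injective for `V × U` if and only if the
  `cl_{i-l}` are injective for `Z × U`, `0 ≤ l ≤ δ`, and **`cl_i` is an isomorphism for `V × U` if and only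
  if the `cl_{i-l}` are isomorphisms for `Z × U`, `0 ≤ l ≤ δ`**. So the answer to Q1 for `V × U` is the same
  as for `Z × U`; if `Z` is a point, as for `U`.

In particular:
* (`Γ = {0}`) for **all products `V` of K3 surfaces of pairwise different finite heights** (not
  `2, 3, 6` with Picard numbers `18, 16, 10`) and every curve `U`, open or singular, all maps `cl_i` for
  `V × U` are surjective, with `SS_i`; they are isomorphisms if the motives of the K3 surfaces are
  finite-dimensional, for example for the Kummer surfaces `X_1`, `X_2` of an ordinary abelian surface and
  of an abelian surface of `p`-rank one;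
* (`Γ` the integers) for a K3 surface `X` of height `h > 1` and **every** variety `U` with integral
  slopes in even weights (for instance every open subvariety of an ordinary variety with ordinary
  boundary strata) surjectivity of all `cl_i` for `X × U` is equivalent to the one for `U`.

The proof: by the results on slopes of the starting files (helper179) no product of eigenvalues of the
Frobenius on the parts `T` of several `X_i` and of a number `β ρ` is a power of `q`; the theorem follows
by the method of the starting file `MP_3af9db_ag.HyperplaneCoverings` (helper876), where the `X_i` are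
coverings branched along hyperplanes.
-/

set_option autoImplicit false

open Polynomial CategoryTheory AlgebraicGeometry NumberField

namespace Pool.Agent.Results.MP_3af9db_ag.DifferentHeights

open Pool.Agent.H914 Pool.Agent.H914.VarClass Pool.Agent.H914.VarClass.Obj Pool.Agent.W492.BB
  Pool.Agent.W484.CK Pool.Agent.N876.GB3 Pool.Agent.Helper17.BG

/-- **Cycle classes on products of arbitrary varieties with K3 surfaces of different heights.** -/
theorem result (p m : ℕ) [Fact p.Prime] (κ : Type) [Field κ] [Fintype κ] {r : ℕ}
    (E : Fin r → Type) [∀ i, Field (E i)] [∀ i, NumberField (E i)] [∀ i, IsCMField (E i)]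
    (α : ∀ i, E i) (e h b n : Fin r → ℕ) (Γ : Set ℚ) (hD : IsK3Data κ p m α e h b n Γ)
    {𝒱 : VarClass κ} (A : TheoryData.{0, 0, 0} 𝒱 ℚ) [IsChow A] {K : Type} [Field K]
    [IsAlgClosed K] [CharZero K] (H : WeilTheoryData.{0, 0, 0} A K) [IsWeil H]
    (F : ∀ X : 𝒱.Obj, X ⟶ X) (X : Fin r → 𝒱.Obj) (Z : 𝒱.Obj) (χ : ℚ[X])
    (hS : IsK3System p m α e n Γ H F X Z χ) (U : Homology K) (hU : IsHomology U χ)
    (T : Theory A) (hT : IsTheory T) (hF : HasFrobenius T F (Fintype.card κ))
    (reg : ∀ X, T.M X → U.R H X) (hreg : IsRegulator T reg) (L : List (Fin r)) (hL : L.Nodup) :
    Conclusions F (Fintype.card κ) χ X Z T reg L :=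
  cycle_main κ A H F X Z χ (cr_k3 hD hS) hS.polarized hS.ne_zero U hU T hT hF reg hreg L hL

end Pool.Agent.Results.MP_3af9db_ag.DifferentHeights
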