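import Pool.Agent.Helper17.BG.Cyc
import Pool.Agent.Helper17.SL.GSys

/-!
# Cycle classes on products with arbitrary varieties and independent slopes

Let `κ` be a finite field with `q = p ^ m` elements, and `𝒱` a class of smooth projective varieties over
`κ`, closed under products, with Chow groups `A` with rational coefficients and a Weil cohomology theory
`H` (framework of the starting files: `TheoryData`, `IsChow`, `IsWeil`).

Slopes. Let `p` be the characteristic of `κ`, and `slope` the valuation of the algebraic closure of `ℚ_p`
with `slope q = 1`. Let `x` be a Weil number of weight `w` (algebraic, with all complex absolute values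
`q ^ (w / 2)`). For a set `D ⊂ ℤ/2 × ℚ` let `SlopesIn D x` mean that the slopes `λ` of all `p`-adic
conjugates of `x` satisfy `(w mod 2, λ - w / 2) ∈ D`, and let `SlopesMeet D B x` mean that moreover
`(w mod 2, λ - w / 2) ∈ B` for at least one of these slopes.

Let `X_i`, `1 ≤ i ≤ r`, be varieties in `𝒱` whose cohomology is generated by the classes of algebraic
cycles and a subspace `T_i` stable under the Frobenius, with `SlopesMeet (D i) (B i)` for the
eigenvalues of the Frobenius on `T_i` (`HasSlopeCohomology`).

Let `U` be **any** variety over `κ` (open, singular, reducible), `ε = dim U`, and `Z` a variety in `𝒱` (for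
example a point). Let `M = ⨁ M^c` with `M^c = H_{2ε-c}(Ū, ℚ_ℓ(ε)) ⊗ K`, the étale homology, with the
geometric Frobenius `μ` (`Homology`; for `U` smooth of pure dimension `ε` this is the cohomology
`H^c(Ū)`). For `X` in `𝒱` let `R(X) = H(X) ⊗ M`, with the Frobenius `Φ = F_X ⊗ μ`. By the Künneth formula
`H_{2i}(X̄ × Ū, ℚ_ℓ(i)) ⊗ K` is, with `n = dim X + ε - i`, the sum of the `H^a(X) ⊗ M^c` with `a + c = 2 n`
(`degreePart`), and the eigenvalue `1` of `Frob_q` on it is the eigenvalue `q ^ n` of `Φ`. Let `T` be the
theory `T^n(X) = CH_i(X × U) ⊗ K`, `i = dim X + ε - n`, with the Frobenius `φ` of `U`, and `reg` the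
cycle class map (on `T` act the correspondences between the varieties in `𝒱`, the cycle class map
commutes with this, and the Frobenius of `X × U` is `q ^ n` on `T^n(X)`: `IsTheory`, `HasFrobenius`,
`IsRegulator`).

Let `χ` be a polynomial with rational coefficients, `χ(0) ≠ 0`, with `χ(μ) = 0` (there are such polynomials,
since the eigenvalues of `μ` are algebraic). Let `D₀` be a set which contains `(0, 0)`, with
`SlopesIn D₀` for the products `β ρ` of the eigenvalues `β` of the Frobenius on `H(Z)` and of the
roots `ρ` of `χ`. Suppose that the sets of slopes are independent (`Independent`): **if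
`d_i ∈ D i`, for `i` in a set of indices, and `d ∈ D₀` satisfy `∑ d_i + d = 0`, then no `d_i` is in `B i`**.
The following two cases are typical.

* (Coprime denominators; `independent_coprime` in `Pool.Agent.Helper17.SL.Coprime`) There are pairwise
  coprime positive integers `N_0, N_1, …, N_r` such that `N_i` is a denominator of the slopes of `X_i`, and
  `N_0` of those of `Z × U`, and every eigenvalue on `T_i` has a conjugate whose slope is not an integer.
* (`B i` the pairs with second component different from zero) No eigenvalue on `T_i` is supersingular;
  if the Tate conjecture and semisimplicity are known for `X_i` over all finite extensions of `κ`, such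
  a `T_i` exists if and only if the supersingular cohomology classes have even degree and are defined over
  `κ`. For K3 surfaces or cubic fourfolds `X_i` of finite heights `h_i`, with **arbitrary** Picard
  numbers and fields of endomorphisms, the set `D i` consists of `(0, 0)`, `(0, 1 / h_i)` and
  `(0, -1 / h_i)`, and independence means that `∑ ± 1 / h_i + c ≠ 0` for every choice of signs, every
  nonempty set of indices and all `(0, c) ∈ D₀`.

For example: `X_1` any supersingular abelian variety or curve whose even cohomology is generated by
classes of cycles over `κ` (the odd cohomology has slopes `w / 2`, `w` odd, `N_1 = 2`), `X_2` a K3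
surface or a cubic fourfold of height `3`, or a curve or an abelian variety with slopes with
denominator `3` (`N_2 = 3`), and so on, and `Z × U` **any** variety with integral slopes, for
instance any ordinary variety.

**Theorem.** Let `V` be the product of `Z` and of finitely many of the `X_i` (pairwise different), and
`δ = dim V - dim Z`. For every integer `i`:
* `cl_i` is surjective for `V × U` if and only if `cl_{i-l}` is surjective for `Z × U` for `0 ≤ l ≤ δ`.
* `SS_i(V × U)` is true if and only if `SS_{i-l}(Z × U)` is true for `0 ≤ l ≤ δ`. Nothing else is assumed.
* Assume that homologically trivial self-correspondences of degree zero of the products `V` are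
  nilpotent and that `χ (φ) = 0` on the Chow groups of the `X × U` (for example if the motives of the
  varieties and of `U` are finite-dimensional). Then `cl_i` is injective for `V × U` if and only if the
  `cl_{i-l}` are injective for `Z × U`, `0 ≤ l ≤ δ`, and **`cl_i` is an isomorphism for `V × U` if and only
  if the `cl_{i-l}` are isomorphisms for `Z × U`, `0 ≤ l ≤ δ`**. So the answer to Q1 for `V × U` is the same
  as for `Z × U`; if `Z` is a point, as for `U`.

The proof: a relation `(∏ μ_i) q ^ e β ρ = q ^ w`, up to roots of unity, between eigenvalues
`μ_i` on `T_i`, `i ∈ I`, an eigenvalue `β` on `H(Z)` and a root `ρ` of `χ`, is mapped by every embedding of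
the field `ℚ(μ_i, β ρ)` into the complex and into the `p`-adic numbers to a relation between weights and
between slopes; for an embedding with slope of one `μ_i` in `B i` this contradicts independence. The
theorem follows by the method of the starting file `MP_3af9db_ag.HyperplaneCoverings` (helper876), where
the `X_i` are coverings branched along hyperplanes.
-/

set_option autoImplicit false

open Finset Polynomial CategoryTheory AlgebraicGeometry

namespace Pool.Agent.Results.MP_3af9db_ag.IndependentSlopes

open Pool.Agent.H914 Pool.Agent.H914.VarClass Pool.Agent.H914.VarClass.Obj Pool.Agent.W492.BB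
  Pool.Agent.W484.CK Pool.Agent.N876.GB3 Pool.Agent.Helper17.SL Pool.Agent.Helper17.SL.G

/-- **Cycle classes on products with arbitrary varieties and independent slopes.** -/
theorem result (p m : ℕ) [Fact p.Prime] (κ : Type) [Field κ] [Fintype κ] {r : ℕ}
    (D B : Fin r → Set (ZMod 2 × ℚ)) (D₀ : Set (ZMod 2 × ℚ)) {𝒱 : VarClass κ}
    (A : TheoryData.{0, 0, 0} 𝒱 ℚ) [IsChow A] {K : Type} [Field K]
    [IsAlgClosed K] [CharZero K] (H : WeilTheoryData.{0, 0, 0} A K) [IsWeil H]
    (F : ∀ X : 𝒱.Obj, X ⟶ X) (X : Fin r → 𝒱.Obj) (Z : 𝒱.Obj) (χ : ℚ[X])
    (hS : IsSlopeSystem p m D B D₀ H F X Z χ) (U : Homology K) (hU : IsHomology U χ)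
    (T : Theory A) (hT : IsTheory T) (hF : HasFrobenius T F (Fintype.card κ))
    (reg : ∀ X, T.M X → U.R H X) (hreg : IsRegulator T reg) (L : List (Fin r)) (hL : L.Nodup) :
    Conclusions F (Fintype.card κ) χ X Z T reg L :=
  Pool.Agent.Helper17.BG.cycle_main κ A H F X Z χ (cr_slope hS) hS.polarized hS.ne_zero U hU T hT hF
    reg hreg L hL

end Pool.Agent.Results.MP_3af9db_ag.IndependentSlopes
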