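import Mathlib
import Pool.Agent.Hx18.RW.Main

/-!
# Cycle classes on products of arbitrary varieties with abelian varieties of maximal angle rank

Let `E i` (`i` in a finite set) be CM fields, of any degrees and with any Galois groups. Let `π i` be a
Weil number for `p ^ a` in `E i`. We suppose that the angle rank is maximal (`MaximalRank`): all
multiplicative relations between the conjugates of the `π i` and `p ^ a` are consequences of the
relations `π * conj π = p ^ a`. This is so (theorem `rank_rigid` of the imported file; it is also used in
the proof of `MP_2a05c8_ag.RigidWeightsTimesSmooth`) if the slopes of the `π i` are given by rigid weights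
and the fields are pairwise independent; for instance, for one `π` of degree `2 d` with the slopes `s_j` and
`1 - s_j`, `1 ≤ j ≤ d`, if one of the numbers `|1 - 2 s_j|` is larger than the sum of the others, or
if `d` is a power of two, the slopes are `0`, `1 / 2` and `1`, and the multiplicity of `0` is odd.

Let `κ` be the field with `(p ^ a) ^ s` elements, and `𝒱` a class of smooth projective varieties over
`κ`, closed under products, with Chow groups `C` with rational coefficients and a Weil cohomology theory
`H` (framework of the starting files: `TheoryData`, `IsChow`, `IsWeil`). Let `A` be an abelian variety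
in `𝒱` which is isogenous over `κ` to a product of powers of abelian varieties with the Weil numbers
`π i ^ s`, and `Z` a variety in `𝒱` (for example a point).

Let `U` be **any** variety over `κ` (open, singular, reducible), `ε = dim U`. Let `M = ⨁ M^c` with
`M^c = H_{2ε-c}(Ū, ℚ_ℓ(ε)) ⊗ K`, the étale homology, with the geometric Frobenius `μ` (`Homology`; for `U`
smooth of pure dimension `ε` this is the cohomology `H^c(Ū)`). For `X` in `𝒱` let `R(X) = H(X) ⊗ M`, with
the Frobenius `Φ = F_X ⊗ μ`. By the Künneth formula `H_{2i}(X̄ × Ū, ℚ_ℓ(i)) ⊗ K` is, with
`n = dim X + ε - i`, the sum of the `H^b(X) ⊗ M^c` with `b + c = 2 n` (`degreePart`), and the eigenvalue `1`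
of `Frob_q` on it is the eigenvalue `q ^ n` of `Φ`. Let `T` be the theory `T^n(X) = CH_i(X × U) ⊗ K`,
`i = dim X + ε - n`, with the Frobenius `φ` of `U`, and `reg` the cycle class map (`IsTheory`,
`HasFrobenius`, `IsRegulator`).

Let `χ` be a polynomial with rational coefficients, `χ(0) ≠ 0`, with `χ(μ) = 0`. Suppose that the products
`β ρ` of the eigenvalues `β` of the Frobenius on `H(Z)` and of the roots `ρ` of `χ` are roots of a
polynomial `P ≠ 0` with rational coefficients, all of whose complex roots `α` are unrelated to the fields
`E i` (`Unrelated`): `α ≠ 0`, and a function `n` on the complex embeddings of `E i` with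
`n (conj φ) = - n φ` which is invariant under all automorphisms of `ℂ` that fix a power of `α` is zero.
This is so, for instance, if a power of `α` lies in a field linearly disjoint from the normal closures of
the `E i`, or in a totally real field. So for `Z` a point it is so for all `A` and all curves `U` of genus
zero with singularities and punctures, for all toric varieties, and for every given `U` for all `A`
whose CM fields are linearly disjoint from the number field of the eigenvalues of `U`.

**Theorem.** For every integer `i`:
* `cl_i` is surjective for `A × Z × U` if and only if `cl_{i-l}` is surjective for `Z × U`,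
  `0 ≤ l ≤ dim A`.
* `SS_i(A × Z × U)` is true if and only if `SS_{i-l}(Z × U)` is true for `0 ≤ l ≤ dim A`. Nothing else is
  assumed.
* Assume that homologically trivial self-correspondences of degree zero of the products `A ^ n × Z` are
  nilpotent and that `χ (φ) = 0` on the Chow groups of the `X × U` (for example if the motives of `Z` and
  of `U` are finite-dimensional). Then `cl_i` is injective for `A × Z × U` if and only if the `cl_{i-l}`
  are injective for `Z × U`, `0 ≤ l ≤ dim A`, and **`cl_i` is an isomorphism for `A × Z × U` if and only if
  the `cl_{i-l}` are isomorphisms for `Z × U`, `0 ≤ l ≤ dim A`**. So the answer to Q1 for `A × U` is the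
  same as for `U`.

The proof: the eigenspaces of the Frobenius on `H(A)` which could contribute to the product with `Z × U`
are generated by products of divisor classes, by the condition on the relations and Tate's theorem on
divisors. Resonances with roots of unity are excluded, since the condition `Unrelated` does not change
under multiplication by roots of unity. Now the theorem follows by the method of the starting file
`MP_3af9db_ag.HyperplaneCoverings`.
-/

set_option autoImplicit false

open Polynomial CategoryTheory AlgebraicGeometry NumberField

namespace Pool.Agent.Results.MP_3af9db_ag.MaximalRankTimesAny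

open Pool.Agent.H914 Pool.Agent.H914.VarClass Pool.Agent.H914.VarClass.Obj Pool.Agent.W492.BB
  Pool.Agent.W484.CK Pool.Agent.N876.GB3 Pool.Agent.Y1.CT Pool.Agent.Hx18.RW

/-- **Cycle classes on products of arbitrary varieties with abelian varieties of maximal angle
rank.** -/
theorem result (p : ℕ) [Fact p.Prime] (a : ℕ) (ha : 0 < a) (I : Type) [Fintype I]
    (E : I → Type) [∀ i, Field (E i)] [∀ i, NumberField (E i)] [∀ i, IsCMField (E i)]
    (π : ∀ i, E i) (hπ : ∀ i, π i * IsCMField.complexConj (E i) (π i) = (p : E i) ^ a)
    (hrank : MaximalRank (p ^ a) π) (f : I → ℤ[X]) (hf : ∀ i, IsPolyOf (π i) (f i))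
    (κ : Type) [Field κ] [Fintype κ] {𝒱 : VarClass κ} (C : TheoryData.{0, 0, 0} 𝒱 ℚ) [IsChow C]
    {K : Type} [Field K] [IsAlgClosed K] [CharZero K] (H : WeilTheoryData.{0, 0, 0} C K) [IsWeil H]
    (F : ∀ X : 𝒱.Obj, X ⟶ X) (A Z : 𝒱.Obj) (χ : ℚ[X]) (s : ℕ)
    (hS : IsAbelianSystem H F A Z χ E (p ^ a) s f) (U : Homology K) (hU : IsHomology U χ)
    (T : Theory C) (hT : IsTheory T) (hF : HasFrobenius T F ((p ^ a) ^ s))
    (reg : ∀ X, T.M X → U.R H X) (hreg : IsRegulator T reg) :
    Comparison F ((p ^ a) ^ s) χ A Z T reg :=
  comparison (Nat.one_lt_pow ha.ne' (Fact.out : p.Prime).one_lt) (noRel_of_rank hπ hrank f hf) hS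
    U hU T hT hF reg hreg

end Pool.Agent.Results.MP_3af9db_ag.MaximalRankTimesAny
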