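import Pool.Agent.Helper11U.TateSS

/-!
# Cycle classes over finite fields and trilinear forms

`k` is a finite field, `E = ℚ_ℓ`. For a separated scheme `X` of finite type over `k` let
`M i n X = CH_n(X, i - 2n) ⊗ ℚ_ℓ` (higher Chow groups), `H i n X = H_i(X̄, ℚ_ℓ(n))` the `ℓ`-adic homology with
the Frobenius `F` and `cl` the cycle class map.

The hypersurfaces `T(x, y, z) = 1` in affine spaces for trilinear forms `T` over `k` are smooth, of
arbitrary dimension.

The proof uses: the cycle class maps of all schemes are surjective onto the invariants of `F` only if `F`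
acts semisimply on the generalized eigenspaces of `H_{2n}(X̄, ℚ_ℓ(n))` for the eigenvalue one
(`semisimple_one`); the generalized eigenspaces form a homology theory; and the hypersurfaces decide every
property of schemes with the closure properties of a comparison of two homology theories (starting
files).
-/

set_option autoImplicit false

open CategoryTheory CategoryTheory.Limits AlgebraicGeometry
open Pool.Agent.Helper11U Pool.Agent.Y116.UV Pool.Agent.Z125.UN Pool.Agent.Q282.UK

universe w w'

namespace Pool.Agent.Results.MP_3af9db_ag.TrilinearHypersurfaces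

variable {k : Type} [Field k] {E : Type w'} [Field E]

/-- The conjectures of Tate and of Beilinson for `X`, with semisimplicity: for all `n` the map
`CH_n(X) ⊗ ℚ_ℓ → H_{2n}(X̄, ℚ_ℓ(n))` is injective, and its image is the generalized eigenspace of `F` for the
eigenvalue one. -/
def Strong (D : TateThy.{w} k E) (X : Sch k) : Prop :=
  ∀ n : ℤ, Function.Injective (D.cl (2 * n) n X).hom ∧ ∀ v : D.H (2 * n) n X,
    (∃ r : ℕ, (((D.F (2 * n) n X).hom - 1) ^ r) v = 0) → ∃ x, (D.cl (2 * n) n X).hom x = v

/-- The conjecture of Parshin for `X`: `CH_n(X, m) ⊗ ℚ_ℓ = 0` for `m ≠ 0`. -/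
def Parshin (D : TateThy.{w} k E) (X : Sch k) : Prop :=
  ∀ i n : ℤ, i ≠ 2 * n → Subsingleton (D.M i n X)

/-- The known properties.
* those of `IsTate`;
* `transfer`: for a finite flat surjective morphism `V → U` of integral schemes the homologies of `U` are
  direct summands of the ones of `V`;
* `alterations`: the theorem of de Jong as a principle of dévissage;
* `supports`, `nonneg`: cycles of dimension `n` have supports of dimension `n`; `CH_n(X, m) = 0` for `m < 0`;
* `weights`: for smooth proper `X` the eigenvalue one does not occur in `H_i(X̄, ℚ_ℓ(n))` for `i ≠ 2n`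
  (Deligne);
* `geisser`: the conjectures of Tate and Beilinson, with semisimplicity, for all smooth proper schemes
  over `k` imply the conjecture of Parshin for them (Geisser);
* `curves`: smooth proper schemes of dimension at most one (Weil, Quillen, Harder);
* `surfaces`: closed subschemes `X` of the affine spaces of dimension at most three all of whose equations
  are products of polynomials of degree at most three and of polynomials with at most four terms. (The
  components of `X` of dimension two have smooth projective models which are geometrically rational or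
  ruled surfaces or are dominated by Fermat surfaces or products of curves; Tate, Soulé.) -/
structure IsBeilinsonThy (D : TateThy.{w} k E) : Prop extends IsTate D where
  transfer : ∀ {V U : Sch k} (f : V ⟶ U), FT True U → IsFinite f.left → Flat f.left →
    Surjective f.left → IsIntegral V.left → IsIntegral U.left → ∀ i n, D.Summand i n U i n V
  alterations : Alterations k
  supports : HasSupports D
  nonneg : NoNegative D
  weights : ∀ X : Sch k, FT True X → IsProper X.hom → Smooth X.hom → ∀ i n : ℤ, i ≠ 2 * n →
    ∀ v : D.H i n X, (D.F i n X).hom v = v → v = 0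
  geisser : ForSmoothProper (Strong D) ⊤ → ForSmoothProper (Parshin D) ⊤
  curves : ForSmoothProper D.Gen 1
  surfaces : ForNice D.Gen 3 3 4

variable {D : TateThy.{w} k E}

lemma gen_transfer (hD : IsBeilinsonThy D) {V U : Sch k} (f : V ⟶ U) (h1 : FT True U)
    (h2 : IsFinite f.left) (h3 : Flat f.left) (h4 : Surjective f.left) (h5 : IsIntegral V.left)
    (h6 : IsIntegral U.left) (h : D.Gen V) : D.Gen U := by
  rw [gen_iff] at h ⊢
  exact fun i n => bij_summand (summand_cmp (hD.transfer f h1 h2 h3 h4 h5 h6 i n)) (h i n)

/-- for smooth proper schemes -/
lemma gen_of_strong (hD : IsBeilinsonThy D) (X : Sch k) (hX : FT True X) (h1 : IsProper X.hom)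
    (h2 : Smooth X.hom) (h3 : Strong D X) (h4 : Parshin D X) : D.Gen X := by
  intro i n
  by_cases hi : i = 2 * n
  · subst hi
    exact h3 n
  · have h5 := h4 i n hi
    refine ⟨fun _ _ _ => Subsingleton.elim _ _, ?_⟩
    rintro v ⟨r, hr⟩
    have key : ∀ (r : ℕ) (v : D.H i n X), (((D.F i n X).hom - 1) ^ r) v = 0 → v = 0 := by
      intro r
      induction r with
      | zero => exact fun v hv => hv
      | succ r ih =>
        intro v hv
        rw [pow_succ, Module.End.mul_apply] at hv
        exact hD.weights X hX h1 h2 i n hi v (sub_eq_zero.mp (ih _ hv))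
    exact ⟨0, by rw [map_zero, key r v hr]⟩

/-- **Theorem.** Let `k` be a finite field. The maps `CH_n(X) ⊗ ℚ_ℓ → H_{2n}(X̄, ℚ_ℓ(n))^F` are bijective for
all separated schemes `X` of finite type over `k` and all `n` if and only if for all trilinear forms `T`
over `k` which are not of cubic type the cycle class maps of the hypersurface `V : T(x, y, z) = 1` are
bijections of `CH_n(V, m) ⊗ ℚ_ℓ` onto the generalized eigenspaces of `F` on `H_{2n + m}(V̄, ℚ_ℓ(n))` for the
eigenvalue one, for all `m` and `n`. Here `T` is of cubic type if one of the three blocks of variables has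
at most three elements, or if there are at most four variables `z` and every minor of the matrix of
linear forms `T(z)` is a product of polynomials of degree at most three and of polynomials with at most
four terms. -/
theorem result [Finite k] [CharZero E] (hD : IsBeilinsonThy D) :
    (∀ X : Sch k, FT True X → D.Inv X) ↔ ForRemaining D.Gen ⊤ := by
  have hB : Bnd True D.Gen := bnd_gen hD.toIsTate
  have h3 : ForBlock D.Gen 3 := (alt_iff hB (gen_transfer hD) hD.alterations 1).mp hD.curves
  rw [← remaining_iff hB h3 hD.surfaces]
  refine ⟨fun h => ?_, fun h X hX =>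
    inv_of_gen ((all_of_tri hB).mpr ((forBlocks_top D.Gen).mp h) X hX)⟩
  have h4 : ∀ X : Sch k, FT True X → Strong D X := fun X hX n =>
    ⟨(h X hX n).1, strong_of_inv hD.supports hD.nonneg (fun X hX n => (h X hX n).2) X hX n⟩
  have h5 := hD.geisser fun X hX _ _ _ => h4 X hX
  have h6 : ForSmoothProper D.Gen ⊤ := fun X hX h1 h2 hd =>
    gen_of_strong hD X hX h1 h2 (h4 X hX) (h5 X hX h1 h2 hd)
  exact (alt_blocks hB (gen_transfer hD) hD.alterations ⊤).mp h6

end Pool.Agent.Results.MP_3af9db_ag.TrilinearHypersurfaces
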